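import Pool.Agent.Helper75.PX.Stmts6

/-!
# Row CEb: the centralizer of `α` and `β`, characteristic two
-/

set_option autoImplicit false

universe u

open Module

namespace Pool.Agent.Helper75.PX

section
variable {K D : Type u} [Field K] [DivisionRing D] [Algebra K D]

/-- the elements commuting with `α` and `β` -/
def ceb_C (K : Type u) {D : Type u} [Field K] [DivisionRing D] [Algebra K D] (α β : D) :
    Submodule K D where
  carrier := {x | x * α = α * x ∧ x * β = β * x}
  add_mem' := by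
    rintro x y ⟨h1, h2⟩ ⟨h3, h4⟩
    exact ⟨by rw [add_mul, mul_add, h1, h3], by rw [add_mul, mul_add, h2, h4]⟩
  zero_mem' := ⟨by simp, by simp⟩
  smul_mem' := by
    rintro k x ⟨h1, h2⟩
    exact ⟨by rw [smul_mul_assoc, mul_smul_comm, h1], by rw [smul_mul_assoc, mul_smul_comm, h2]⟩

theorem ceb_two {γ y y' : D} (h : y * γ = γ * y)
    (h' : y' * γ = (γ + 1) * y') (hs : y + y' = 0) : y = 0 ∧ y' = 0 := by
  have h3 : y' = 0 := by
    have h4 : (y + y') * γ = 0 := by rw [hs, zero_mul]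
    rw [add_mul, h, h', add_mul, one_mul, ← add_assoc, ← mul_add, hs, mul_zero, zero_add] at h4
    exact h4
  refine ⟨?_, h3⟩
  rw [h3, add_zero] at hs
  exact hs

/-- the independence of `1, α, β, αβ` -/
theorem ceb_ind (α β z w : D) (hz0 : z ≠ 0) (hw0 : w ≠ 0)
    (hza : z * α = (α + 1) * z) (hzb : z * β = β * z)
    (hwb : w * β = (β + 1) * w) (t : Fin 4 → K)
    (h : t 0 • (1 : D) + t 1 • α + t 2 • β + t 3 • (α * β) = 0) :
    t 0 = 0 ∧ t 1 = 0 ∧ t 2 = 0 ∧ t 3 = 0 := by
  have key : ∀ c d : K, c • (1 : D) + d • β = 0 → c = 0 ∧ d = 0 := by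
    intro c d hcd
    have h1 : w * (c • (1 : D) + d • β) = 0 := by rw [hcd, mul_zero]
    have h2 : w * (c • (1 : D) + d • β) = (c • (1 : D) + d • β) * w + d • w := by
      rw [mul_add, mul_smul_comm, mul_smul_comm, hwb, add_mul, add_mul, smul_mul_assoc,
        smul_mul_assoc, one_mul, mul_one, smul_add, add_assoc]
    rw [h1, hcd, zero_mul, zero_add] at h2
    have h3 : d = 0 := (smul_eq_zero.1 h2.symm).resolve_right hw0
    refine ⟨?_, h3⟩
    rw [h3, zero_smul, add_zero] at hcd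
    exact (smul_eq_zero.1 hcd).resolve_right one_ne_zero
  have h1 : z * (t 0 • (1 : D) + t 1 • α + t 2 • β + t 3 • (α * β)) =
      (t 0 • (1 : D) + t 1 • α + t 2 • β + t 3 • (α * β)) * z +
        (t 1 • (1 : D) + t 3 • β) * z := by
    have e1 : z * (α * β) = (α * β) * z + β * z := by
      rw [← mul_assoc, hza, mul_assoc, hzb, add_mul, one_mul, mul_assoc]
    simp only [mul_add, add_mul, mul_smul_comm, smul_mul_assoc, hza, hzb, e1, one_mul, mul_one,
      smul_add]
    abel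
  rw [h, mul_zero, zero_mul, zero_add] at h1
  have h2 := (mul_eq_zero.1 h1.symm).resolve_right hz0
  obtain ⟨h3, h4⟩ := key _ _ h2
  rw [h3, h4, zero_smul, zero_smul, add_zero, add_zero] at h
  obtain ⟨h5, h6⟩ := key _ _ h
  exact ⟨h5, h3, h6, h4⟩

/-- four copies of the centralizer -/
def ceb_f (α β z w : D) : ((ceb_C K α β × ceb_C K α β) × (ceb_C K α β × ceb_C K α β)) →ₗ[K] D where
  toFun p := ((p.1.1 : D) + w * (p.1.2 : D)) + (z * (p.2.1 : D) + w * (z * (p.2.2 : D)))
  map_add' p q := by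
    simp only [Prod.fst_add, Prod.snd_add, Submodule.coe_add, mul_add]
    abel
  map_smul' k p := by
    simp only [Prod.smul_fst, Prod.smul_snd, Submodule.coe_smul, mul_smul_comm, smul_add,
      RingHom.id_apply]

theorem ceb_inj (α β z w : D) (hz0 : z ≠ 0) (hw0 : w ≠ 0)
    (hza : z * α = (α + 1) * z) (hzb : z * β = β * z)
    (hwa : w * α = α * w) (hwb : w * β = (β + 1) * w) :
    Function.Injective (ceb_f (K := K) α β z w) := by
  rw [injective_iff_map_eq_zero]
  rintro ⟨⟨x0, x1⟩, ⟨x2, x3⟩⟩ hp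
  have h : ((x0 : D) + w * (x1 : D)) + (z * (x2 : D) + w * (z * (x3 : D))) = 0 := hp
  have hwa1 : w * (α + 1) = (α + 1) * w := by rw [mul_add, add_mul, hwa, mul_one, one_mul]
  have h1 := ceb_two (γ := α) (y := (x0 : D) + w * (x1 : D))
    (y' := z * (x2 : D) + w * (z * (x3 : D)))
    (by
      rw [add_mul, mul_add, x0.2.1, mul_assoc, x1.2.1, ← mul_assoc, hwa, mul_assoc])
    (by
      rw [add_mul (z * (x2 : D)), mul_add (α + 1), mul_assoc z, x2.2.1, ← mul_assoc z, hza,
        mul_assoc (α + 1) z, mul_assoc w, mul_assoc z (x3 : D), x3.2.1, ← mul_assoc z α, hza,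
        mul_assoc (α + 1) z, ← mul_assoc w (α + 1), hwa1, mul_assoc (α + 1) w]) h
  have h3 := ceb_two (γ := β) (y := (x0 : D)) (y' := w * (x1 : D)) x0.2.2
    (by rw [mul_assoc, x1.2.2, ← mul_assoc, hwb, mul_assoc]) h1.1
  have h4 := ceb_two (γ := β) (y := z * (x2 : D)) (y' := w * (z * (x3 : D)))
    (by rw [mul_assoc, x2.2.2, ← mul_assoc, hzb, mul_assoc])
    (by
      rw [mul_assoc, mul_assoc, x3.2.2, ← mul_assoc z, hzb, ← mul_assoc w, ← mul_assoc w, hwb,
        mul_assoc, mul_assoc]) h1.2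
  have e0 : x0 = 0 := Subtype.ext h3.1
  have e1 : x1 = 0 := Subtype.ext ((mul_eq_zero.1 h3.2).resolve_left hw0)
  have e2 : x2 = 0 := Subtype.ext ((mul_eq_zero.1 h4.1).resolve_left hz0)
  have e3 : x3 = 0 := Subtype.ext
    ((mul_eq_zero.1 ((mul_eq_zero.1 h4.2).resolve_left hw0)).resolve_left hz0)
  rw [e0, e1, e2, e3]
  rfl

end

theorem st_CEb : ST_CEb.{u} := by
  intro K D _ _ _ _ hD _ α β z w a b _ _ hab hz0 hw0 hza hzb hwa hwb x hx1 hx2
  have hfin : FiniteDimensional K D := FiniteDimensional.of_finrank_pos (by rw [hD]; norm_num)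
  have hle := LinearMap.finrank_le_finrank_of_injective
    (ceb_inj (K := K) α β z w hz0 hw0 hza hzb hwa hwb)
  rw [finrank_prod, finrank_prod, hD] at hle
  have c1 : (1 : D) ∈ ceb_C K α β := ⟨by rw [one_mul, mul_one], by rw [one_mul, mul_one]⟩
  have ca : α ∈ ceb_C K α β := ⟨rfl, hab⟩
  have cb : β ∈ ceb_C K α β := ⟨hab.symm, rfl⟩
  have cab : α * β ∈ ceb_C K α β :=
    ⟨by rw [mul_assoc, ← hab], by rw [← mul_assoc, ← hab]⟩
  let g : Fin 4 → ceb_C K α β := ![⟨1, c1⟩, ⟨α, ca⟩, ⟨β, cb⟩, ⟨α * β, cab⟩]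
  have hval : ∀ t : Fin 4 → K, ((∑ i, t i • g i : ceb_C K α β) : D) =
      t 0 • (1 : D) + t 1 • α + t 2 • β + t 3 • (α * β) := by
    intro t
    rw [Fin.sum_univ_four]
    rfl
  have hg : LinearIndependent K g := by
    rw [Fintype.linearIndependent_iff]
    intro t ht
    have h1 : t 0 • (1 : D) + t 1 • α + t 2 • β + t 3 • (α * β) = 0 := by
      rw [← hval t, ht]
      rfl
    have h3 := ceb_ind α β z w hz0 hw0 hza hzb hwb t h1
    intro i
    fin_cases i
    · exact h3.1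
    · exact h3.2.1
    · exact h3.2.2.1
    · exact h3.2.2.2
  have hcard : Fintype.card (Fin 4) = finrank K (ceb_C K α β) := by
    have h3 := hg.fintype_card_le_finrank
    rw [Fintype.card_fin] at h3 ⊢
    omega
  have hspan := hg.span_eq_top_of_card_eq_finrank' hcard
  have hx : (⟨x, hx1, hx2⟩ : ceb_C K α β) ∈ Submodule.span K (Set.range g) := by
    rw [hspan]
    exact Submodule.mem_top
  rw [Submodule.mem_span_range_iff_exists_fun] at hx
  obtain ⟨v, hv⟩ := hx
  refine ⟨v, ?_⟩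
  have h4 := congrArg (fun y : ceb_C K α β => (y : D)) hv
  unfold uE
  rw [← hval v]
  exact h4.symm

end Pool.Agent.Helper75.PX
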