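import Pool.Agent.Helper75.PX.Stmts

set_option autoImplicit false

universe u

namespace Pool.Agent.Helper75.PX

theorem st_SC3 : ST_SC3.{u} := by
  intro K A _ _ _ ζ i j c d f g hf hg h
  refine ⟨?_, ?_, ?_, mul_ne_zero h.c0 (pow_ne_zero _ hf), mul_ne_zero h.d0 (pow_ne_zero _ hg)⟩
  · rw [smul_mul_smul_comm, smul_mul_smul_comm, h.hi, Algebra.smul_def, ← map_mul]
    congr 1
    ring
  · rw [smul_mul_smul_comm, smul_mul_smul_comm, h.hj, Algebra.smul_def, ← map_mul]
    congr 1
    ring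
  · rw [smul_mul_smul_comm, smul_mul_smul_comm, h.hij, smul_smul, smul_smul]
    congr 1
    ring

end Pool.Agent.Helper75.PX
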