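import Pool.Agent.Helper75.PX.Stmts6

/-!
# Row A4b, lemmas P and Q
-/

set_option autoImplicit false

universe u

open Module

namespace Pool.Agent.Helper75.PX

theorem lp_neg {K D : Type u} [Field K] [DivisionRing D] [Algebra K D] (h2 : (2 : K) = 0)
    (x : D) : x + x = 0 := by
  have h : (2 : D) = 0 := by
    rw [← map_ofNat (algebraMap K D) 2, h2, map_zero]
  rw [← two_mul, h, zero_mul]

/-- elements of degree one, two or four -/
theorem lp_deg (h1 : ST_MPD.{u}) (h2 : ST_MDV.{u}) {K D : Type u} [Field K] [DivisionRing D]
    [Algebra K D] [Algebra.IsCentral K D] (hfr : finrank K D = 16) (v : D) :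
    (minpoly K v).natDegree = 1 ∨ (minpoly K v).natDegree = 2 ∨ (minpoly K v).natDegree = 4 := by
  have : FiniteDimensional K D := FiniteDimensional.of_finrank_pos (by omega)
  have a1 : 0 < (minpoly K v).natDegree := minpoly.natDegree_pos (IsIntegral.of_finite K v)
  have a2 : (minpoly K v).natDegree ≤ 4 := h1 K D 4 (by norm_num) (by rw [hfr]; norm_num) v
  have a3 : (minpoly K v).natDegree ∣ 16 := by
    have := h2 K D v
    rwa [hfr] at this
  interval_cases (minpoly K v).natDegree
  · left; rfl
  · right; left; rfl
  · exfalso; revert a3; decide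
  · right; right; rfl

theorem lp_one {K D : Type u} [Field K] [DivisionRing D] [Algebra K D] (v : D)
    (hv : ∀ k : K, v ≠ algebraMap K D k) : (minpoly K v).natDegree ≠ 1 := by
  intro h
  rw [minpoly.natDegree_eq_one_iff] at h
  obtain ⟨k, hk⟩ := h
  exact hv k hk.symm

theorem lp_two {K D : Type u} [Field K] [DivisionRing D] [Algebra K D]
    [FiniteDimensional K D] (v : D) (h : (minpoly K v).natDegree = 2) :
    ∃ s m : K, v * v + algebraMap K D s * v + algebraMap K D m = 0 := by
  have hroot := minpoly.aeval K v
  have hmon := minpoly.monic (IsIntegral.of_finite K v)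
  rw [Polynomial.aeval_eq_sum_range] at hroot
  have hlead : (minpoly K v).coeff (minpoly K v).natDegree = 1 := hmon
  rw [h] at hroot hlead
  simp only [Finset.sum_range_succ, Finset.sum_range_zero, zero_add, hlead] at hroot
  refine ⟨(minpoly K v).coeff 1, (minpoly K v).coeff 0, ?_⟩
  simp only [pow_zero, pow_one, Algebra.smul_def, mul_one, pow_two, map_one,
    one_mul] at hroot
  rw [← hroot]
  abel

/-- if `v` has degree two over `K` and `v * v` is not in `K`, there is a separable element -/
theorem lp_sep {K D : Type u} [Field K] [DivisionRing D] [Algebra K D] (h2 : (2 : K) = 0)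
    (v : D) (hv : ∀ k : K, v ≠ algebraMap K D k) (s m : K) (hs : s ≠ 0)
    (h : v * v + algebraMap K D s * v + algebraMap K D m = 0) :
    ∃ (α : D) (a : K), α * α = α + algebraMap K D a ∧ ∀ k : K, α ≠ algebraMap K D k := by
  refine ⟨algebraMap K D s⁻¹ * v, s⁻¹ ^ 2 * m, ?_, ?_⟩
  · have h3 : v * v = algebraMap K D s * v + algebraMap K D m := by
      have h4 := lp_neg h2 (algebraMap K D s * v + algebraMap K D m)
      have h5 : v * v + (algebraMap K D s * v + algebraMap K D m) = 0 := by rw [← add_assoc, h]
      rw [← add_right_cancel_iff (a := algebraMap K D s * v + algebraMap K D m), h5, h4]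
    have hc : v * algebraMap K D s⁻¹ = algebraMap K D s⁻¹ * v := (Algebra.commutes _ _).symm
    calc algebraMap K D s⁻¹ * v * (algebraMap K D s⁻¹ * v)
        = algebraMap K D s⁻¹ * algebraMap K D s⁻¹ * (v * v) := by
          rw [mul_assoc, ← mul_assoc v, hc, mul_assoc _ v v, ← mul_assoc]
      _ = _ := by
          rw [h3, mul_add, ← mul_assoc, ← map_mul, ← map_mul, ← map_mul]
          congr 2
          · congr 1
            field_simp
          · congr 1
            ring
  · intro k hk
    refine hv (s * k) ?_
    rw [map_mul, ← hk, ← mul_assoc, ← map_mul, mul_inv_cancel₀ hs, map_one, one_mul]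

theorem lemP (h1 : ST_MPD.{u}) (hdv : ST_MDV.{u}) {K D : Type u} [Field K] [DivisionRing D]
    [Algebra K D] [Algebra.IsCentral K D] (hfr : finrank K D = 16) (h2 : (2 : K) = 0)
    (v : D) (m : K) (hm : v * v = algebraMap K D m) (hv : ∀ k : K, v ≠ algebraMap K D k) :
    ∃ (α : D) (a : K), α * α = α + algebraMap K D a ∧ ∀ k : K, α ≠ algebraMap K D k := by
  have hfin : FiniteDimensional K D := FiniteDimensional.of_finrank_pos (by omega)
  have hN : ∀ x : D, x + x = 0 := lp_neg h2
  -- an element that does not commute with `v`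
  obtain ⟨x0, hx0⟩ : ∃ x0 : D, v * x0 + x0 * v ≠ 0 := by
    by_contra hc
    push Not at hc
    have h3 : v ∈ Subalgebra.center K D := by
      rw [Subalgebra.mem_center_iff]
      intro b
      have h4 := hc b
      have h5 := hN (v * b)
      have h6 : b * v = v * b := by
        rw [← add_right_inj (v * b), h4, h5]
      exact h6
    rw [Algebra.IsCentral.center_eq_bot] at h3
    obtain ⟨k, hk⟩ := Algebra.mem_bot.1 h3
    exact hv k hk.symm
  obtain ⟨g, hg⟩ : ∃ g, g = v * x0 + x0 * v := ⟨_, rfl⟩
  rw [← hg] at hx0
  have hcen : ∀ x : D, algebraMap K D m * x = x * algebraMap K D m := fun x => Algebra.commutes _ _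
  have hvg : v * g = g * v := by
    rw [hg, mul_add, add_mul, ← mul_assoc, hm, hcen, mul_assoc x0 v v, hm, add_comm,
      ← mul_assoc v x0 v]
  have hgi : g⁻¹ * v = v * g⁻¹ := by
    have := (Commute.inv_left₀ (show Commute g v from hvg.symm))
    exact this
  obtain ⟨y, hy⟩ : ∃ y, y = x0 * v * g⁻¹ := ⟨_, rfl⟩
  have hvy0 : v * y + y * v = v := by
    have e1 : v * y + y * v = g * v * g⁻¹ := by
      rw [hy, mul_assoc (x0 * v) g⁻¹ v, hgi]
      calc v * (x0 * v * g⁻¹) + x0 * v * (v * g⁻¹) = (v * x0 + x0 * v) * v * g⁻¹ := by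
            rw [add_mul, add_mul]
            simp only [mul_assoc]
        _ = g * v * g⁻¹ := by rw [← hg]
    rw [e1, ← hvg, mul_assoc, mul_inv_cancel₀ hx0, mul_one]
  have hv0 : v ≠ 0 := by
    intro h
    exact hv 0 (by rw [h, map_zero])
  have hvy : v * y = (y + 1) * v := by
    rw [add_mul, one_mul]
    have e := hN (y * v)
    rw [← add_left_inj (y * v), hvy0, add_assoc, add_comm v, ← add_assoc, e, zero_add]
  have hvy1 : v * (y + 1) = y * v := by
    rw [mul_add, hvy, add_mul, mul_one, one_mul, add_assoc, hN, add_zero]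
  have hvy2 : v * (y * y) = (y * y + 1) * v := by
    have e3 : (y + 1) * (y + 1) = y * y + 1 := by
      have e := hN y
      rw [add_mul, mul_add, mul_one, one_mul, add_assoc, ← add_assoc y y 1, e, zero_add]
    rw [← mul_assoc, hvy, mul_assoc, hvy, ← mul_assoc, e3]
  obtain ⟨t, ht⟩ : ∃ t, t = y * y + y := ⟨_, rfl⟩
  have hvt : v * t = t * v := by
    rw [ht, mul_add, hvy2, hvy, add_mul, add_mul, add_mul, one_mul]
    have e := hN v
    calc y * y * v + v + (y * v + v) = y * y * v + y * v + (v + v) := by abel
      _ = y * y * v + y * v := by rw [e, add_zero]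
  have hyy : y * y = y + t := by
    rw [ht, add_comm (y * y), ← add_assoc, hN, zero_add]
  by_cases hcase : ∃ k : K, t = algebraMap K D k
  · obtain ⟨k, hk⟩ := hcase
    refine ⟨y, k, by rw [hyy, hk], ?_⟩
    intro l hl
    have e1 : v * y = y * v := by rw [hl]; exact (Algebra.commutes _ _).symm
    rw [e1, add_mul, one_mul] at hvy
    exact hv0 (by simpa using hvy.symm)
  push Not at hcase
  have hd2 : (minpoly K t).natDegree = 2 := by
    rcases lp_deg h1 hdv hfr t with h | h | h
    · exact absurd h (lp_one t hcase)
    · exact h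
    · exfalso
      let W : Submodule K D := Submodule.map (Polynomial.aeval (R := K) y).toLinearMap
        (Polynomial.degreeLT K 4)
      have hW : finrank K W ≤ 4 := by
        refine (Submodule.finrank_map_le _ _).trans ?_
        rw [LinearEquiv.finrank_eq (Polynomial.degreeLTEquiv K 4), Module.finrank_fin_fun]
      have hmem : ∀ p : Polynomial K, Polynomial.aeval y p ∈ W := by
        intro p
        have hmon := minpoly.monic (IsIntegral.of_finite K y)
        refine ⟨p %ₘ minpoly K y, ?_, ?_⟩
        · change p %ₘ minpoly K y ∈ Polynomial.degreeLT K 4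
          rw [Polynomial.mem_degreeLT]
          refine (Polynomial.degree_modByMonic_lt p hmon).trans_le ?_
          rw [Polynomial.degree_eq_natDegree hmon.ne_zero]
          exact_mod_cast h1 K D 4 (by norm_num) (by rw [hfr]; norm_num) y
        · exact Polynomial.aeval_modByMonic_eq_self_of_root (minpoly.aeval K y)
      have hli : LinearIndependent K fun i : Fin (minpoly K t).natDegree => t ^ (i : ℕ) :=
        linearIndependent_pow t
      have hin : ∀ i : Fin (minpoly K t).natDegree, t ^ (i : ℕ) ∈ W := by
        intro i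
        have e : t ^ (i : ℕ) = Polynomial.aeval y
            ((Polynomial.X * Polynomial.X + Polynomial.X : Polynomial K) ^ (i : ℕ)) := by
          rw [map_pow, map_add, map_mul, Polynomial.aeval_X, ← ht]
        rw [e]
        exact hmem _
      let f : Fin (minpoly K t).natDegree → W := fun i => ⟨t ^ (i : ℕ), hin i⟩
      have hf : LinearIndependent K f := by
        refine LinearIndependent.of_comp W.subtype ?_
        exact hli
      have hcard : Fintype.card (Fin (minpoly K t).natDegree) = finrank K W := by
        have h3 := hf.fintype_card_le_finrank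
        rw [Fintype.card_fin] at h3 ⊢
        omega
      have : Nonempty (Fin (minpoly K t).natDegree) := ⟨⟨0, by omega⟩⟩
      have hspan := hf.span_eq_top_of_card_eq_finrank' hcard
      have hy1 : y ∈ W := by
        have := hmem Polynomial.X
        rwa [Polynomial.aeval_X] at this
      have hx : (⟨y, hy1⟩ : W) ∈ Submodule.span K (Set.range f) := by
        rw [hspan]
        exact Submodule.mem_top
      rw [Submodule.mem_span_range_iff_exists_fun] at hx
      obtain ⟨c, hc⟩ := hx
      have h4 : ((∑ i, c i • f i : W) : D) = y := congrArg (fun y : W => (y : D)) hc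
      have h5 : ∑ i, c i • t ^ ((i : Fin (minpoly K t).natDegree) : ℕ) = y := by
        rw [← h4, Submodule.coe_sum]
        rfl
      have hcom : ∀ i : ℕ, v * t ^ i = t ^ i * v := fun i =>
        ((show Commute v t from hvt).pow_right i)
      have h6 : v * y = y * v := by
        rw [← h5, Finset.mul_sum, Finset.sum_mul]
        refine Finset.sum_congr rfl fun i _ => ?_
        rw [mul_smul_comm, smul_mul_assoc, hcom]
      rw [h6, add_mul, one_mul] at hvy
      exact hv0 (by simpa using hvy.symm)
  obtain ⟨s, n, hsn⟩ := lp_two t hd2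
  by_cases hs : s = 0
  · rw [hs, map_zero, zero_mul, add_zero] at hsn
    have htn : t * t = algebraMap K D n := by
      rw [← add_left_inj (algebraMap K D n), hsn, hN]
    refine ⟨y * y, n, ?_, ?_⟩
    · have hyt : y * t = t * y := by rw [ht, mul_add, add_mul, mul_assoc]
      have e1 : t * t = y * y * (y * y) + y * y := by
        have e2 := hN (y * (y * y))
        rw [ht, mul_add, add_mul, add_mul, mul_assoc y y y]
        calc y * y * (y * y) + y * (y * y) + (y * (y * y) + y * y)
            = y * y * (y * y) + (y * (y * y) + y * (y * y)) + y * y := by abel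
          _ = _ := by rw [e2, add_zero]
      rw [← htn, e1, add_comm (y * y * (y * y)), ← add_assoc, hN, zero_add]
    · intro k hk
      have e1 : v * (y * y) = y * y * v := by rw [hk]; exact (Algebra.commutes _ _).symm
      rw [e1, add_mul, one_mul] at hvy2
      exact hv0 (by simpa using hvy2.symm)
  · exact lp_sep h2 t hcase s n hs hsn

theorem lemQ (h1 : ST_MPD.{u}) (hdv : ST_MDV.{u}) {K D : Type u} [Field K] [DivisionRing D]
    [Algebra K D] [Algebra.IsCentral K D] (hfr : finrank K D = 16) (h2 : (2 : K) = 0)
    (v : D) (hv : ∀ k : K, v ≠ algebraMap K D k) (hd : (minpoly K v).natDegree = 2) :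
    ∃ (α : D) (a : K), α * α = α + algebraMap K D a ∧ ∀ k : K, α ≠ algebraMap K D k := by
  have hfin : FiniteDimensional K D := FiniteDimensional.of_finrank_pos (by omega)
  obtain ⟨s, m, hsm⟩ := lp_two v hd
  by_cases hs : s = 0
  · rw [hs, map_zero, zero_mul, add_zero] at hsm
    refine lemP h1 hdv hfr h2 v m ?_ hv
    rw [← add_left_inj (algebraMap K D m), hsm, lp_neg h2]
  · exact lp_sep h2 v hv s m hs hsm

end Pool.Agent.Helper75.PX
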